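import Pool.Agent.X249.RB.Corr

/-!
# The directed red-blue cut problem is NP-complete

The problem asks, for a digraph with red and blue arcs and two numbers `r`, `b`, for a nonempty
proper subset `X` of the vertices left by at most `r` red and at most `b` blue arcs. It is
NP-complete, also for digraphs without parallel arcs.

The reduction is from CLIQUE, for a graph `(V, E)` and a number `k`. The digraph has a block of
`|V| + 4` mutually joined vertices (all arcs red) for a source `s`, for a sink `t`, for every
vertex and for every edge of the graph. Red arcs between all members of two blocks lead from every
block to `s`, from `t` to every block, and from every edge block to the blocks of its ends. As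
there are few red arcs to spare, `X` is a union of blocks, contains `s` but not `t`, and contains
the ends of all its edges. One red arc from every vertex block to `t` makes `X` contain at most `k`
vertex blocks; one blue arc from `s` to every edge block, and `k choose 2` blue arcs from `s` to
`t`, make `X` contain at least `k choose 2` edge blocks.
-/

namespace Pool.Agent.Results.MP_ac2b6c_lc.DirectedRedBlueCutNPComplete

open Pool.Agent.NPC Pool.Agent.X249.RB

/-- The directed red-blue cut problem is NP-complete (for digraphs with or without parallel
arcs). -/
theorem result : (InNPP RedBlueCut ∧ NPHardP RedBlueCut) ∧
    (InNPP SimpleRedBlueCut ∧ NPHardP SimpleRedBlueCut) :=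
  ⟨⟨inNP_redBlueCut, hard.2.toNPHardP⟩, ⟨inNP_simpleRedBlueCut, hard.1.toNPHardP⟩⟩

end Pool.Agent.Results.MP_ac2b6c_lc.DirectedRedBlueCutNPComplete
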